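import Pool.Agent.L7h3.GL.Stm

/-! Project GL, part FINQ. -/

set_option autoImplicit false

namespace Pool.Agent.L7h66.GL

open Pool.Agent.L7h3.GL

lemma head_le {L : Type} [CompleteLattice L] {a : L} {l : List L} (h1 : l.head? = some a)
    (h2 : l.IsChain (· ⋖ ·)) : ∀ z ∈ l, a ≤ z := by
  have h3 : l.IsChain (· < ·) := h2.imp (fun x y h => h.lt)
  have h4 : l.Pairwise (· < ·) := List.isChain_iff_pairwise.1 h3
  cases l with
  | nil => simp at h1
  | cons c l =>
    have h5 : c = a := by simpa using h1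
    subst h5
    intro z hz
    rcases List.mem_cons.1 hz with h | h
    · exact h.ge
    · exact ((List.pairwise_cons.1 h4).1 z h).le

lemma le_last {L : Type} [CompleteLattice L] {l : List L} (h2 : l.IsChain (· ⋖ ·)) :
    ∀ z ∈ l, ∃ e, l.getLast? = some e ∧ z ≤ e := by
  intro z hz
  have h3 : l.IsChain (· < ·) := h2.imp (fun x y h => h.lt)
  have h4 : l.Pairwise (· < ·) := List.isChain_iff_pairwise.1 h3
  have hne : l ≠ [] := List.ne_nil_of_mem hz
  refine ⟨l.getLast hne, List.getLast?_eq_getLast_of_ne_nil hne, ?_⟩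
  have h5 := List.dropLast_append_getLast hne
  rw [← h5] at h4 hz
  rcases List.mem_append.1 hz with h | h
  · exact ((List.pairwise_append.1 h4).2.2 z h _ (List.mem_singleton_self _)).le
  · exact (List.mem_singleton.1 h).le

theorem s_FINQ (hcut : S_CUT) (hmen : S_MEN) : S_FINQ := by
  classical
  intro L _ ρ hρ b T hcv hfin hnt
  obtain ⟨T, rfl⟩ := hfin.exists_finset_coe
  have hVf : {z : L | Gen b (T : Set L) z ∧ b < z ∧ z < tp b (T : Set L)}.Finite := by
    refine ((T.finite_toSet.powerset).image (fun s : Set L => b ⊔ sSup s)).subset ?_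
    rintro z ⟨hz, -, -⟩
    exact ⟨{a | a ∈ (T : Set L) ∧ a ≤ z}, fun a ha => ha.1, hz.symm⟩
  have hTt : ∀ a ∈ T, a < tp b (T : Set L) := by
    intro a ha
    have h1 : a ≤ tp b (T : Set L) := (le_sSup (Finset.mem_coe.2 ha)).trans le_sup_right
    refine lt_of_le_of_ne h1 ?_
    intro h2
    obtain ⟨a', ha', hne⟩ := hnt.exists_ne a
    have h3 : a' ≤ a := by
      rw [h2]
      exact (le_sSup ha').trans le_sup_right
    rcases eq_or_lt_of_le h3 with h4 | h4
    · exact hne h4
    · exact (hcv a ha).2 (hcv a' ha').lt h4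
  have hTg : ∀ a ∈ T, Gen b (T : Set L) a := by
    intro a ha
    apply le_antisymm
    · exact (le_sSup (show a ∈ {x | x ∈ (T : Set L) ∧ x ≤ a} from
        ⟨Finset.mem_coe.2 ha, le_rfl⟩)).trans le_sup_right
    · exact sup_le (hcv a ha).le (sSup_le fun x hx => hx.2)
  have hVm : ∀ z, z ∈ hVf.toFinset ↔ (Gen b (T : Set L) z ∧ b < z ∧ z < tp b (T : Set L)) := by
    intro z
    rw [Set.Finite.mem_toFinset]
    rfl
  obtain ⟨p, hp1, hp2⟩ := hmen L hVf.toFinset T
    (hVf.toFinset.filter fun z => z ⋖ tp b (T : Set L)) (· ⋖ ·) ρ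
    (fun x y h => hρ.mono x y h.lt)
    (fun a ha => (hVm a).2 ⟨hTg a ha, (hcv a ha).lt, hTt a ha⟩)
    (Finset.filter_subset _ _)
    (fun x hx a ha h => (hcv a ha).2 ((hVm x).1 hx).2.1 h.lt)
    (by
      intro S hS
      refine hcut L ρ hρ b T S hcv ?_ ?_
      · exact Finset.one_lt_card_iff_nontrivial.2 hnt
      · intro a ha l hl hg
        have hV : ∀ z ∈ l, z ∈ hVf.toFinset := by
          intro z hz
          obtain ⟨e, he1, he2⟩ := le_last hl.2.1 z hz
          exact (hVm z).2 ⟨hg z hz, (hcv a ha).lt.trans_le (head_le hl.1 hl.2.1 z hz),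
            he2.trans_lt (hl.2.2 e he1).lt⟩
        refine hS a ha l hl.1 hl.2.1 hV ?_
        intro z hz
        rw [Finset.mem_filter]
        exact ⟨hV z (List.mem_of_getLast? hz), hl.2.2 z hz⟩)
  refine ⟨p, ?_, fun a ha a' ha' h => hp2 a ha a' ha' h⟩
  intro a ha
  obtain ⟨h1, h2, h3, h4⟩ := hp1 a ha
  exact ⟨⟨h1, h2, fun z hz => (Finset.mem_filter.1 (h4 z hz)).2⟩,
    fun z hz => ((hVm z).1 (h3 z hz)).1⟩

end Pool.Agent.L7h66.GL
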